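import Pool.Agent.H94.CB.AD.T.Ell
import Pool.Agent.H94.CB.M113
import Pool.Agent.H94.CB.M119
import Pool.Agent.H94.CB.M122

/-!
# TS Crv: all the curves in a variety over a torus without elliptic curves are of general type
-/

set_option autoImplicit false

open MvPolynomial Topology Filter
open Pool.Agent.H17 (PN VanishesAt HolomorphicInto exists_global_lift)
open Pool.Agent.H62.FC (Homog)
open Pool.Agent.H17LG.Variety (FunField IsLogGeneralType)
open Pool.Agent.H17EF (projVar GT)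
open Pool.Agent.H17BP (vanishesAt_mk)
open Pool.Agent.H13.OT (OrderTwo)
open Pool.Agent.H14.V (brodyCurves DoublyPeriodic)
open Pool.Agent.AD (NoEllipticCurve)
open Pool.Agent.H19T (EllipticDirection sheets sheetSet TorusSheets cocompact_of_span)

noncomputable section

namespace Pool.Agent.H14.TS

attribute [-instance] ProperSMul.toContinuousSMul

variable {N n : ℕ}

/-- holomorphic maps `ℂ^n → ℙ^N` -/
def Hol (Φ : (Fin n → ℂ) → PN N) : Prop :=
  ∀ w, ∃ φ : (Fin n → ℂ) → Fin (N + 1) → ℂ, AnalyticAt ℂ φ w ∧ ∀ᶠ y in 𝓝 w, ∃ h : φ y ≠ 0, Φ y = Projectivization.mk ℂ (φ y) h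

theorem analyticAt_eval {E : Type*} [NormedAddCommGroup E] [NormedSpace ℂ E] {φ : E → Fin (N + 1) → ℂ} {w : E} (hφ : AnalyticAt ℂ φ w)
    (R : MvPolynomial (Fin (N + 1)) ℂ) : AnalyticAt ℂ (fun y => eval (φ y) R) w := by
  induction R using MvPolynomial.induction_on with
  | C a => simpa using analyticAt_const
  | add p q hp hq =>
    simp only [map_add]
    exact hp.add hq
  | mul_X p i hp =>
    simp only [map_mul, eval_X]
    exact hp.mul (analyticAt_pi_iff.1 hφ i)

/-- the set of the points with `R (Φ w) = 0` is closed -/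
theorem isClosed_vanish {Φ : (Fin n → ℂ) → PN N} (hΦ : Hol Φ) {R : MvPolynomial (Fin (N + 1)) ℂ} {m : ℕ} (hR : R.IsHomogeneous m) :
    IsClosed {w | VanishesAt R (Φ w)} := by
  rw [← isOpen_compl_iff, isOpen_iff_mem_nhds]
  intro w hw
  obtain ⟨φ, hφ, hev⟩ := hΦ w
  have h1 : eval (φ w) R ≠ 0 := by
    obtain ⟨h0, e⟩ := hev.self_of_nhds
    intro h2
    apply hw
    show VanishesAt R (Φ w)
    rw [e, vanishesAt_mk hR]
    exact h2
  filter_upwards [hev, (analyticAt_eval hφ R).continuousAt.eventually_ne h1] with y hy hy2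
  obtain ⟨h0, e⟩ := hy
  show ¬ VanishesAt R (Φ y)
  rw [e, vanishesAt_mk hR]
  exact hy2

/-- lines -/
theorem Hol.line {Φ : (Fin n → ℂ) → PN N} (hΦ : Hol Φ) (a b : Fin n → ℂ) : HolomorphicInto (fun z => Φ (b + z • a)) Set.univ := by
  intro z _
  obtain ⟨φ, hφ, hev⟩ := hΦ (b + z • a)
  have h1 : AnalyticAt ℂ (fun z : ℂ => b + z • a) z := analyticAt_const.add (analyticAt_id.smul analyticAt_const)
  exact ⟨fun z => φ (b + z • a), AnalyticAt.comp (g := φ) (f := fun z : ℂ => b + z • a) hφ h1, h1.continuousAt.tendsto.eventually hev⟩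

/-- from real to complex parameters -/
theorem vanish_of_real {f : ℂ → PN N} (hf : HolomorphicInto f Set.univ) {R : MvPolynomial (Fin (N + 1)) ℂ} {m : ℕ} (hR : R.IsHomogeneous m)
    (h : ∀ t : ℝ, VanishesAt R (f t)) (z : ℂ) : VanishesAt R (f z) := by
  obtain ⟨F, hF⟩ := exists_global_lift hf
  have hva : ∀ z, VanishesAt R (f z) ↔ eval (fun j => (F j : ℂ → ℂ) z) R = 0 := by
    intro z
    obtain ⟨h, e⟩ := hF z
    rw [e, vanishesAt_mk hR]
  have han : AnalyticOnNhd ℂ (fun z => eval (fun j => (F j : ℂ → ℂ) z) R) Set.univ := fun z _ =>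
    analyticAt_eval (analyticAt_pi_iff.2 fun j => (F j).analyticAt z) R
  have h1 := han.eqOn_zero_of_preconnected_of_frequently_eq_zero isPreconnected_univ (Set.mem_univ (0 : ℂ)) (by
    have h2 : Tendsto (fun k : ℕ => ((1 / ((k : ℝ) + 1) : ℝ) : ℂ)) atTop (𝓝[≠] 0) := by
      rw [tendsto_nhdsWithin_iff]
      refine ⟨?_, Eventually.of_forall fun k => ?_⟩
      · have h3 := (Complex.continuous_ofReal.tendsto 0).comp (tendsto_one_div_add_atTop_nhds_zero_nat (𝕜 := ℝ))
        rw [Complex.ofReal_zero] at h3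
        exact h3
      · have h4 : (1 / ((k : ℝ) + 1) : ℝ) ≠ 0 := by positivity
        exact fun h5 => h4 (Complex.ofReal_eq_zero.1 h5)
    exact h2.frequently (Frequently.of_forall fun k => (hva _).1 (h _)))
  exact (hva z).2 (h1 (Set.mem_univ z))

/-- a plane does not lie in an algebraic curve -/
theorem no_plane {Φ : (Fin n → ℂ) → PN N} (hΦ : Hol Φ) {Λ : AddSubgroup (Fin n → ℂ)} [Countable Λ] (hinj : ∀ w w', Φ w = Φ w' → w - w' ∈ Λ)
    {Q : Ideal (MvPolynomial (Fin (N + 1)) ℂ)} [Q.IsPrime] (hQ : Homog Q) (hz : ∃ z : Fin 1 → FunField Q, IsTranscendenceBasis ℂ z)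
    {a b e : Fin n → ℂ} (ha : a ≠ 0) (he : e ∉ Submodule.span ℂ {a}) (hΦQ : ∀ t z : ℂ, Φ (b + t • e + z • a) ∈ projVar Q) : False := by
  have hline : ∀ v : Fin n → ℂ, v ≠ 0 → ∃ z : ℂ, z • v ∉ Λ := by
    intro v hv
    by_contra hcon
    push Not at hcon
    have hi : Function.Injective fun z : ℂ => (⟨z • v, hcon z⟩ : Λ) := fun z w h => smul_left_injective ℂ hv (congrArg Subtype.val h)
    have h1 : Countable ℂ := hi.countable
    exact not_countable_complex (Set.countable_univ_iff.2 h1)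
  obtain ⟨y, hy⟩ := exists_point_uncountable (Ψ := fun t z => Φ (b + t • e + z • a)) hQ hz (fun t => hΦ.line a _) (fun t z => hΦQ t z) (fun t => by
    obtain ⟨z, hz⟩ := hline a ha
    refine ⟨z, 0, fun h => hz ?_⟩
    have h1 := hinj _ _ h
    have h2 : b + (t : ℂ) • e + (z : ℂ) • a - (b + (t : ℂ) • e + (0 : ℂ) • a) = (z : ℂ) • a := by rw [zero_smul]; abel
    rwa [h2] at h1)
  apply hy
  set T := {t : ℂ | ∃ z : ℂ, Φ (b + t • e + z • a) = y} with hT
  rcases T.eq_empty_or_nonempty with h0 | ⟨t₀, z₀, h0⟩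
  · rw [h0]
    exact Set.countable_empty
  · have hex : ∀ t : T, ∃ z : ℂ, Φ (b + (t : ℂ) • e + z • a) = y := fun t => t.2
    choose ζ hζ using hex
    have hmem : ∀ t : T, (b + (t : ℂ) • e + ζ t • a) - (b + t₀ • e + z₀ • a) ∈ Λ := fun t => hinj _ _ ((hζ t).trans h0.symm)
    have hi : Function.Injective fun t : T => (⟨_, hmem t⟩ : Λ) := by
      intro t t' h
      have h1 : (b + (t : ℂ) • e + ζ t • a) - (b + t₀ • e + z₀ • a) = (b + (t' : ℂ) • e + ζ t' • a) - (b + t₀ • e + z₀ • a) := congrArg Subtype.val h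
      have h2 : ((t : ℂ) - t') • e = (ζ t' - ζ t) • a := by
        rw [sub_smul, sub_smul]
        have h3 := sub_left_injective h1
        have h4 : (t : ℂ) • e + ζ t • a = (t' : ℂ) • e + ζ t' • a := by
          have h5 : b + ((t : ℂ) • e + ζ t • a) = b + ((t' : ℂ) • e + ζ t' • a) := by rw [← add_assoc, ← add_assoc]; exact h3
          exact add_left_cancel h5
        rw [sub_eq_sub_iff_add_eq_add, h4, add_comm]
      apply Subtype.ext
      by_contra hne
      apply he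
      have h5 : (t : ℂ) - t' ≠ 0 := sub_ne_zero.2 hne
      rw [Submodule.mem_span_singleton]
      refine ⟨((t : ℂ) - t')⁻¹ * (ζ t' - ζ t), ?_⟩
      rw [← smul_smul, ← h2, smul_smul, inv_mul_cancel₀ h5, one_smul]
    have h1 : Countable T := hi.countable
    exact Set.countable_coe_iff.1 h1

/-- **Curves are of general type**, or elliptic curves in the union of the images of the maps `Φ`. -/
theorem curve_or {P : Ideal (MvPolynomial (Fin (N + 1)) ℂ)} {Λ : AddSubgroup (Fin n → ℂ)} [DiscreteTopology Λ]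
    (hspan : Submodule.span ℝ (Λ : Set (Fin n → ℂ)) = ⊤) {u : PN N → (Fin n → ℂ) ⧸ Λ} (hS : TorusSheets P Λ u)
    (hcurves : ∀ f : ℂ → PN N, HolomorphicInto f Set.univ → OrderTwo f → (∀ z, f z ∈ projVar P) → (∃ z w, f z ≠ f w) →
      ∃ Φ ∈ sheets (projVar P) Λ u, ∃ a b : Fin n → ℂ, ∀ z, f z = Φ (z • a + b))
    {Q : Ideal (MvPolynomial (Fin (N + 1)) ℂ)} [Q.IsPrime] (hQ : Homog Q) (hPQ : P ≤ Q)
    (hz : ∃ z : Fin 1 → FunField Q, IsTranscendenceBasis ℂ z) : GT Q 1 ∨ ∃ Φ ∈ sheets (projVar P) Λ u, ∃ a b : Fin n → ℂ, a ≠ 0 ∧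
      EllipticDirection Λ a ∧ DoublyPeriodic (fun z => Φ (z • a + b)) ∧ projVar Q = Set.range fun z : ℂ => Φ (z • a + b) := by
  have hc : Countable Λ := TopologicalSpace.separableSpace_iff_countable.1 inferInstance
  have hsub : projVar Q ⊆ projVar P := fun x hx R hR n hn => hx R (hPQ hR) n hn
  have hX := Pool.Agent.AD.SS.exists_X Q le_rfl hz
  by_cases hl : IsLogGeneralType (Pool.Agent.H62.SA.OnBd Q (fun _ : Fin 1 => (1 : MvPolynomial (Fin (N + 1)) ℂ)) (k := 1))
  · left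
    rw [Pool.Agent.H17EF.onBd_one] at hl
    exact hl
  · right
    obtain ⟨f, hf, hfQ, hne⟩ := Pool.Agent.H13.CV.exists_entire_of_not_lgtL Q hX hz (G := fun _ : Fin 1 => (1 : MvPolynomial (Fin (N + 1)) ℂ))
      (fun _ => ⟨0, isHomogeneous_one _ _⟩) hl
    rw [Pool.Agent.H17EF.locVar_one] at hfQ
    -- a Brody curve
    obtain ⟨g, hg, hgne⟩ : ∃ g ∈ brodyCurves (projVar Q) 1, ∃ z w, g z ≠ g w := by
      by_contra hcon
      push Not at hcon
      obtain ⟨z, w, hzw⟩ := hne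
      exact hzw (Pool.Agent.H22.WL.const_of_kobayashi (Pool.Agent.AD.kobayashi_of_brody hQ hcon) hf hfQ z w)
    obtain ⟨hgQ, G, hG, hG1⟩ := hg
    obtain ⟨Φ, hΦ, a, b, hgΦ⟩ := hcurves g hG.holomorphicInto (Pool.Agent.H14.V.orderTwo_of hG hG1) (fun z => hsub (hgQ z)) hgne
    have ha : a ≠ 0 := by
      rintro rfl
      obtain ⟨z, w, hzw⟩ := hgne
      apply hzw
      rw [hgΦ, hgΦ, smul_zero, smul_zero]
    obtain ⟨M, hM, hper⟩ := hS.periodic
    -- the lattice `M Λ`
    obtain ⟨Λ', hΛ'⟩ : ∃ Λ' : AddSubgroup (Fin n → ℂ), Λ' = Λ.map (nsmulAddMonoidHom M) := ⟨_, rfl⟩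
    have hmem' : ∀ x, x ∈ Λ' ↔ ∃ l ∈ Λ, M • l = x := fun x => by
      rw [hΛ']
      exact Iff.rfl
    obtain ⟨C, hC⟩ := cocompact_of_span hspan
    have hM0 : (0 : ℝ) < M := by exact_mod_cast hM
    have hC' : ∀ b : Fin n → ℂ, ∃ l ∈ Λ', ‖b - l‖ ≤ M * C := by
      intro b
      obtain ⟨l, hl, h1⟩ := hC ((M : ℝ)⁻¹ • b)
      refine ⟨M • l, (hmem' _).2 ⟨l, hl, rfl⟩, ?_⟩
      have h2 : b - M • l = (M : ℝ) • ((M : ℝ)⁻¹ • b - l) := by
        rw [smul_sub, smul_smul, mul_inv_cancel₀ hM0.ne', one_smul, Nat.cast_smul_eq_nsmul]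
      rw [h2, norm_smul, Real.norm_of_nonneg hM0.le]
      exact mul_le_mul_of_nonneg_left h1 hM0.le
    have hgf : g = fun z => Φ (z • a + b) := funext hgΦ
    rcases elliptic_or hC' a with ⟨ω₁, ω₂, hω, h1, h2⟩ | ⟨e, he, hcl⟩
    · have h3 : ∀ ω : ℂ, ω • a ∈ Λ' → ω • a ∈ Λ := by
        intro ω hω
        obtain ⟨l, hl, h4⟩ := (hmem' _).1 hω
        rw [← h4]
        exact Λ.nsmul_mem hl M
      have h4 : ∀ ω : ℂ, ω • a ∈ Λ' → ∀ z, g (z + ω) = g z := by
        intro ω hω z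
        obtain ⟨l, hl, h5⟩ := (hmem' _).1 hω
        rw [hgΦ, hgΦ, add_smul, ← h5, add_right_comm, hper Φ hΦ l hl]
      have h5 : DoublyPeriodic g := ⟨ω₁, ω₂, hω, fun z => ⟨h4 _ h1 z, h4 _ h2 z⟩⟩
      have h6 : projVar Q = Set.range g := by
        rw [← Pool.Agent.AD.zariskiClosure_eq_range hG.holomorphicInto h5 hgne]
        ext x
        constructor
        · intro hx R m hm hR
          exact hx R (Pool.Agent.H13.CV.form_of_curve0 Q hQ hz hG.holomorphicInto hgQ hgne hm hR) m hm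
        · intro hx R hR m hm
          exact hx R m hm fun z => hgQ z R hR m hm
      exact ⟨Φ, hΦ, a, b, ha, ⟨ω₁, ω₂, hω, h3 _ h1, h3 _ h2⟩, hgf ▸ h5, hgf ▸ h6⟩
    · exfalso
      have hHol : Hol Φ := hΦ.1
      have hreal : ∀ (t : ℝ) (z : ℂ), Φ (b + (t : ℂ) • e + z • a) ∈ projVar Q := by
        intro t z R hR m hm
        have h4 := (isClosed_vanish hHol hm).preimage (f := fun x : Fin n → ℂ => b + x + z • a) (by fun_prop)
        have h5 : closure {x | ∃ z : ℂ, ∃ l ∈ Λ', x = z • a + l} ⊆ (fun x : Fin n → ℂ => b + x + z • a) ⁻¹' {w | VanishesAt R (Φ w)} := by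
          refine closure_minimal ?_ h4
          rintro _ ⟨z', l, hl, rfl⟩
          obtain ⟨l', hl', rfl⟩ := (hmem' _).1 hl
          show VanishesAt R (Φ (b + (z' • a + M • l') + z • a))
          have h6 : b + (z' • a + M • l') + z • a = ((z + z') • a + b) + M • l' := by
            rw [add_smul]
            abel
          rw [h6, hper Φ hΦ l' hl', ← hgΦ]
          exact hgQ _ R hR m hm
        have h7 := h5 (hcl t)
        have h8 : (t : ℂ) • e = t • e := Complex.coe_smul t e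
        rw [h8]
        exact h7
      refine no_plane hHol (fun w w' h => (hS.disjoint Φ hΦ Φ hΦ w w' h).1) hQ hz ha he (b := b) fun t z R hR m hm => ?_
      have h4 : HolomorphicInto (fun t : ℂ => Φ ((b + z • a) + t • e)) Set.univ := hHol.line e _
      have h5 := vanish_of_real h4 hm (fun t => by
        have := hreal t z R hR m hm
        rwa [add_right_comm] at this) t
      rwa [add_right_comm] at h5

end Pool.Agent.H14.TS
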